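import Mathlib

set_option autoImplicit false

namespace Pool.Agent.Results.MP_d51325_lc.TwoAgents

open Finset

/-- The bundle of agent `i` when good `g` goes to agent `a g`. -/
def bundle {n m : ℕ} (a : Fin m → Fin n) (i : Fin n) : Finset (Fin m) :=
  univ.filter (fun g => a g = i)

/-- EF1 with respect to a profile of additive valuations. -/
def EF1 {n m : ℕ} (w : Fin n → Fin m → ℝ) (a : Fin m → Fin n) : Prop :=
  ∀ i j, bundle a j = ∅ ∨
    ∃ g ∈ bundle a j, ∑ x ∈ (bundle a j).erase g, w i x ≤ ∑ x ∈ bundle a i, w i x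

open Classical in
/-- SD-EF1 with respect to a profile of additive valuations. -/
def SDEF1 {n m : ℕ} (w : Fin n → Fin m → ℝ) (a : Fin m → Fin n) : Prop :=
  ∀ i j g, (((bundle a j).filter (fun x => w i g ≤ w i x)).card : ℤ) - 1 ≤
    ((bundle a i).filter (fun x => w i g ≤ w i x)).card

lemma exists_rank {m : ℕ} (u : Fin m → ℝ) :
    ∃ r : Fin m → ℕ, Function.Injective r ∧ (∀ g, r g < m) ∧
      (∀ k < m, ∃ g, r g = k) ∧ ∀ g h, r g ≤ r h → u h ≤ u g := by
  let σ := Tuple.sort (fun g => - u g)
  have hm := Tuple.monotone_sort (fun g => - u g)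
  refine ⟨fun g => (σ.symm g).val, ?_, fun g => (σ.symm g).2, ?_, ?_⟩
  · intro a b h
    exact σ.symm.injective (Fin.ext h)
  · intro k hk
    exact ⟨σ ⟨k, hk⟩, by simp⟩
  · intro g h hgh
    have := hm (show σ.symm g ≤ σ.symm h from hgh)
    simp only [Function.comp, σ, Equiv.apply_symm_apply] at this
    linarith

/-- prefix condition: the other bundle `B` has at most half (rounded up) of every prefix -/
def Pre {m : ℕ} (r : Fin m → ℕ) (B : Finset (Fin m)) : Prop :=
  ∀ k, 2 * (B.filter (fun x => r x < k)).card ≤ (univ.filter (fun x => r x < k)).card + 1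

lemma pre_of_inj {m : ℕ} (r : Fin m → ℕ) (hs : ∀ k < m, ∃ g, r g = k) (hl : ∀ g, r g < m)
    (B : Finset (Fin m)) (hB : Set.InjOn (fun x => r x / 2) B) : Pre r B := by
  intro k
  have h1 : (B.filter (fun x => r x < k)).card ≤ (range ((min k m + 1) / 2)).card := by
    apply card_le_card_of_injOn (fun x => r x / 2)
    · intro x hx
      simp only [coe_filter, Set.mem_ofPred_eq] at hx
      have := hl x
      simp only [coe_range, Set.mem_Iio]
      omega
    · intro x hx y hy h
      simp only [coe_filter, Set.mem_ofPred_eq] at hx hy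
      exact hB hx.1 hy.1 h
  have h2 : (range (min k m)).card ≤ (univ.filter (fun x => r x < k)).card := by
    apply card_le_card_of_surjOn r
    intro j hj
    simp only [coe_range, Set.mem_Iio] at hj
    obtain ⟨g, hg⟩ := hs j (by omega)
    exact ⟨g, by simp; omega, hg⟩
  simp only [card_range] at h1 h2
  omega

open Classical in
lemma sd_of_pre {m : ℕ} (u : Fin m → ℝ) (r : Fin m → ℕ) (hr : ∀ g h, r g ≤ r h → u h ≤ u g)
    (B : Finset (Fin m)) (hB : Pre r B) (g : Fin m) :
    ((B.filter (fun x => u g ≤ u x)).card : ℤ) - 1 ≤ (Bᶜ.filter (fun x => u g ≤ u x)).card := by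
  obtain ⟨z, hz, hmax⟩ := exists_max_image (univ.filter (fun x => u g ≤ u x)) r ⟨g, by simp⟩
  have key : ∀ x, u g ≤ u x ↔ r x < r z + 1 := by
    intro x
    constructor
    · intro h
      have := hmax x (by simpa using h)
      omega
    · intro h
      have h1 := hr x z (by omega)
      have h2 : u g ≤ u z := by simpa using hz
      linarith
  have h := hB (r z + 1)
  simp only [key]
  have h3 : (univ.filter (fun x => r x < r z + 1)).card =
      (B.filter (fun x => r x < r z + 1)).card + (Bᶜ.filter (fun x => r x < r z + 1)).card := by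
    rw [← card_union_of_disjoint (disjoint_filter_filter disjoint_compl_right), ← filter_union,
      union_compl]
  omega

/-- a set splitting the pairs of both rankings -/
lemma exists_split {m : ℕ} (r s : Fin m → ℕ) (hr : Function.Injective r) (hs : Function.Injective s)
    (hrl : ∀ g, r g < m) (hsl : ∀ g, s g < m) (hrs : ∀ k < m, ∃ g, r g = k) :
    ∃ S : Finset (Fin m), Set.InjOn (fun x => r x / 2) S ∧ Set.InjOn (fun x => r x / 2) ↑(Sᶜ) ∧
      Set.InjOn (fun x => s x / 2) S ∧ Set.InjOn (fun x => s x / 2) ↑(Sᶜ) := by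
  classical
  set p := (m + 1) / 2 with hp
  choose e he using hrs
  let φ : ℕ → ℕ := fun k => if h : k < m then s (e k h) else k
  have hφr : ∀ g, φ (r g) = s g := by
    intro g
    simp only [φ, dif_pos (hrl g)]
    congr 1
    exact hr (he _ _)
  have hφl : ∀ k < 2 * p, φ k < 2 * p := by
    intro k hk
    by_cases h : k < m
    · simp only [φ, dif_pos h]; have := hsl (e k h); omega
    · simp only [φ, dif_neg h]; exact hk
  have hφi : Function.Injective φ := by
    intro a b hab
    by_cases ha : a < m <;> by_cases hb : b < m <;> simp only [φ, ha, hb, dif_pos, dif_neg,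
      not_false_eq_true] at hab
    · have := hs hab
      rw [← he a ha, ← he b hb, this]
    · have := hsl (e a ha); omega
    · have := hsl (e b hb); omega
    · exact hab
  let t : Fin p → Finset ℕ := fun j => {φ (2 * j) / 2, φ (2 * j + 1) / 2}
  have hall : ∀ J : Finset (Fin p), J.card ≤ (J.biUnion t).card := by
    intro J
    have h1 : (J ×ˢ (range 2)).card ≤ ((J.biUnion t) ×ˢ (range 2)).card := by
      apply card_le_card_of_injOn (fun x => (φ (2 * x.1 + x.2) / 2, φ (2 * x.1 + x.2) % 2))
      · rintro ⟨j, ε⟩ hx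
        simp only [coe_product, coe_range, Set.mem_prod, mem_coe, Set.mem_Iio] at hx ⊢
        refine ⟨mem_biUnion.2 ⟨j, hx.1, ?_⟩, by omega⟩
        have : ε = 0 ∨ ε = 1 := by omega
        rcases this with rfl | rfl <;> simp [t]
      · rintro ⟨j, ε⟩ hx ⟨j', ε'⟩ hy h
        simp only [coe_product, coe_range, Set.mem_prod, mem_coe, Set.mem_Iio,
          Prod.mk.injEq] at hx hy h ⊢
        have h2 : φ (2 * j + ε) = φ (2 * j' + ε') := by omega
        have h3 := hφi h2
        exact ⟨Fin.ext (by omega), by omega⟩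
    simp only [card_product, card_range] at h1
    omega
  obtain ⟨f, hfi, hf⟩ := (all_card_le_biUnion_card_iff_exists_injective t).1 hall
  have hc : ∀ j : Fin p, ∃ k : ℕ, k / 2 = (j : ℕ) ∧ φ k / 2 = f j := by
    intro j
    have := hf j
    simp only [t, mem_insert, mem_singleton] at this
    rcases this with h | h
    · exact ⟨2 * j, by omega, h.symm⟩
    · exact ⟨2 * j + 1, by omega, h.symm⟩
  choose c hc1 hc2 using hc
  have hfl : ∀ j, f j < p := by
    intro j
    have h1 := hc1 j
    have h2 := hc2 j
    have h3 := hφl (c j) (by have := j.2; omega)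
    omega
  have hfs : ∀ q < p, ∃ j, f j = q := by
    intro q hq
    let F : Fin p → Fin p := fun j => ⟨f j, hfl j⟩
    have hF : Function.Injective F := fun a b h => hfi (congrArg Fin.val h)
    obtain ⟨j, hj⟩ := Finite.surjective_of_injective hF ⟨q, hq⟩
    exact ⟨j, congrArg Fin.val hj⟩
  refine ⟨univ.filter (fun g => ∃ j, c j = r g), ?_, ?_, ?_, ?_⟩
  · intro x hx y hy h
    simp only [coe_filter, mem_univ, true_and, Set.mem_ofPred_eq] at hx hy h
    obtain ⟨j, hj⟩ := hx
    obtain ⟨j', hj'⟩ := hy
    have h1 := hc1 j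
    have h2 := hc1 j'
    have : j = j' := Fin.ext (by rw [← h1, ← h2, hj, hj', h])
    subst this
    exact hr (hj.symm.trans hj')
  · intro x hx y hy h
    simp only [coe_compl, coe_filter, mem_univ, true_and, Set.mem_compl_iff, Set.mem_ofPred_eq,
      not_exists] at hx hy h
    have hxl := hrl x
    have h1 := hc1 ⟨r x / 2, by omega⟩
    have h2 := hx ⟨r x / 2, by omega⟩
    have h3 := hy ⟨r x / 2, by omega⟩
    simp only at h1
    exact hr (by omega)
  · intro x hx y hy h
    simp only [coe_filter, mem_univ, true_and, Set.mem_ofPred_eq] at hx hy h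
    obtain ⟨j, hj⟩ := hx
    obtain ⟨j', hj'⟩ := hy
    have h1 := hc2 j
    have h2 := hc2 j'
    rw [hj, hφr] at h1
    rw [hj', hφr] at h2
    have : j = j' := hfi (by rw [← h1, ← h2, h])
    subst this
    exact hr (hj.symm.trans hj')
  · intro x hx y hy h
    simp only [coe_compl, coe_filter, mem_univ, true_and, Set.mem_compl_iff, Set.mem_ofPred_eq,
      not_exists] at hx hy h
    have hxl := hsl x
    obtain ⟨j, hj⟩ := hfs (s x / 2) (by omega)
    have h1 := hc2 j
    have h2 : φ (c j) ≠ s x := fun h' => hx j (hφi (by rw [hφr, h']))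
    have h3 : φ (c j) ≠ s y := fun h' => hy j (hφi (by rw [hφr, h']))
    exact hs (by omega)

/-- the bundle `B` is too big for the common valuation -/
def Big {m : ℕ} (v : Fin m → ℝ) (B : Finset (Fin m)) : Prop :=
  B.Nonempty ∧ ∀ g ∈ B, ∑ x ∈ Bᶜ, v x + v g < ∑ x ∈ B, v x

lemma big_top {m : ℕ} (v : Fin m → ℝ) (hv : ∀ g, 0 ≤ v g) (r s : Fin m → ℕ)
    (hr : Function.Injective r)
    (H : ∀ A : Finset (Fin m), Set.InjOn (fun x => s x / 2) A → Pre r Aᶜ → Big v A ∨ Big v Aᶜ)
    (T : Finset (Fin m)) (hT : ∀ g, g ∈ T ↔ ∀ h, s h / 2 = s g / 2 → r g ≤ r h) :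
    ∀ (N : ℕ) (A : Finset (Fin m)), (T \ A).card = N → Set.InjOn (fun x => s x / 2) A →
      Pre r Aᶜ → (Big v A ↔ Big v T) := by
  intro N
  induction N using Nat.strong_induction_on with
  | _ N ih =>
  intro A hN hA hP
  by_cases hTA : T ⊆ A
  · have : A = T := by
      refine Subset.antisymm ?_ hTA
      intro a ha
      obtain ⟨z, hz, hmin⟩ := exists_min_image (univ.filter (fun h => s h / 2 = s a / 2)) r
        ⟨a, by simp⟩
      have hz' : s z / 2 = s a / 2 := by simpa using hz
      have hzT : z ∈ T := (hT z).2 (fun h hh => hmin h (by simp [hh, hz']))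
      have : z = a := hA (hTA hzT) ha hz'
      exact this ▸ hzT
    rw [this]
  · obtain ⟨g, hgT, hgA⟩ := not_subset.1 hTA
    have nb : ∀ B : Finset (Fin m), Big v B → Big v Bᶜ → False := by
      rintro B ⟨⟨b, hb⟩, h1⟩ ⟨⟨b', hb'⟩, h2⟩
      have h3 := h1 b hb
      have h4 := h2 b' hb'
      rw [compl_compl] at h4
      linarith [hv b, hv b']
    have tot : ∀ B : Finset (Fin m), ∑ x ∈ Bᶜ, v x = ∑ x, v x - ∑ x ∈ B, v x := by
      intro B
      rw [← sum_add_sum_compl B]; ring
    by_cases hh : ∃ h ∈ A, s h / 2 = s g / 2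
    · obtain ⟨h, hhA, hhg⟩ := hh
      have hne : h ≠ g := fun e => hgA (e ▸ hhA)
      have hlt : r g < r h := lt_of_le_of_ne ((hT g).1 hgT h hhg) (fun e => hne (hr e).symm)
      have hhT : h ∉ T := fun e => by have := (hT h).1 e g hhg.symm; omega
      set A' := insert g (A.erase h) with hA'
      have hI : Set.InjOn (fun x => s x / 2) A' := by
        intro x hx y hy hxy
        simp only [hA', coe_insert, coe_erase, Set.mem_insert_iff, Set.mem_sdiff, mem_coe,
          Set.mem_singleton_iff] at hx hy hxy
        rcases hx with rfl | hx <;> rcases hy with rfl | hy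
        · rfl
        · exact absurd (hA hy.1 hhA (hxy.symm.trans hhg.symm)) hy.2
        · exact absurd (hA hx.1 hhA (hxy.trans hhg.symm)) hx.2
        · exact hA hx.1 hy.1 hxy
      have hP' : Pre r A'ᶜ := by
        intro k
        refine le_trans (Nat.mul_le_mul_left 2 ?_) (hP k)
        apply card_le_card_of_injOn (fun x => if x = h then g else x)
        · intro x hx
          simp only [hA', coe_filter, mem_compl, mem_insert, mem_erase, Set.mem_ofPred_eq] at hx ⊢
          by_cases e : x = h
          · subst e; simp only [if_true]; exact ⟨hgA, by omega⟩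
          · simp only [if_neg e]; exact ⟨fun hxA => hx.1 (Or.inr ⟨e, hxA⟩), hx.2⟩
        · intro x hx y hy hxy
          simp only [hA', coe_filter, mem_compl, mem_insert, mem_erase, Set.mem_ofPred_eq] at hx hy
          by_cases e : x = h <;> by_cases e' : y = h <;> simp only [e, e', if_true, if_false] at hxy
          · rw [e, e']
          · exact absurd (Or.inl hxy.symm) hy.1
          · exact absurd (Or.inl hxy) hx.1
          · exact hxy
      have hlt' : (T \ A').card < N := by
        rw [← hN]
        apply card_lt_card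
        refine ⟨?_, fun hsub => ?_⟩
        · intro x hx
          simp only [hA', mem_sdiff, mem_insert, mem_erase] at hx ⊢
          exact ⟨hx.1, fun hxA => hx.2 (Or.inr ⟨fun e => hhT (e ▸ hx.1), hxA⟩)⟩
        · have := hsub (mem_sdiff.2 ⟨hgT, hgA⟩)
          simp [hA'] at this
      rw [← ih _ hlt' A' rfl hI hP']
      have hs' : ∑ x ∈ A', v x = ∑ x ∈ A, v x + v g - v h := by
        rw [hA', sum_insert (by simp [hgA]), ← add_sum_erase A v hhA]; ring
      constructor
      · intro hb
        refine (H A' hI hP').resolve_right (fun hb' => ?_)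
        have h1 := hb.2 h hhA
        have h2 := hb'.2 h (by simp [hA', hne])
        rw [compl_compl] at h2
        rw [tot] at h1 h2
        linarith [hv g]
      · intro hb
        refine (H A hA hP).resolve_right (fun hb' => ?_)
        have h1 := hb.2 g (by simp [hA'])
        have h2 := hb'.2 g (by simp [hgA])
        rw [compl_compl] at h2
        rw [tot] at h1 h2
        linarith [hv h]
    · push Not at hh
      set A' := insert g A with hA'
      have hI : Set.InjOn (fun x => s x / 2) A' := by
        intro x hx y hy hxy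
        simp only [hA', coe_insert, Set.mem_insert_iff, mem_coe] at hx hy hxy
        rcases hx with rfl | hx <;> rcases hy with rfl | hy
        · rfl
        · exact absurd hxy.symm (hh y hy)
        · exact absurd hxy (hh x hx)
        · exact hA hx hy hxy
      have hP' : Pre r A'ᶜ := by
        intro k
        refine le_trans (Nat.mul_le_mul_left 2 ?_) (hP k)
        exact card_le_card (filter_subset_filter _ (compl_subset_compl.2 (subset_insert _ _)))
      have hlt' : (T \ A').card < N := by
        rw [← hN]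
        apply card_lt_card
        refine ⟨sdiff_subset_sdiff le_rfl (subset_insert _ _), fun hsub => ?_⟩
        have := hsub (mem_sdiff.2 ⟨hgT, hgA⟩)
        simp [hA'] at this
      rw [← ih _ hlt' A' rfl hI hP']
      have hs' : ∑ x ∈ A', v x = ∑ x ∈ A, v x + v g := by
        rw [hA', sum_insert hgA]; ring
      constructor
      · intro hb
        refine (H A' hI hP').resolve_right (fun hb' => ?_)
        obtain ⟨a, ha⟩ := hb.1
        obtain ⟨b, hb2⟩ := hb'.1
        have h1 := hb.2 a ha
        have h2 := hb'.2 b hb2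
        rw [compl_compl] at h2
        rw [tot] at h1 h2
        linarith [hv g, hv a, hv b]
      · intro hb
        refine (H A hA hP).resolve_right (fun hb' => ?_)
        have h1 := hb.2 g (by simp [hA'])
        have h2 := hb'.2 g (by simp [hgA])
        rw [compl_compl] at h2
        rw [tot] at h1 h2
        linarith

theorem result (m : ℕ) (u : Fin 2 → Fin m → ℝ) (v : Fin m → ℝ)
    (_hu : ∀ i g, 0 ≤ u i g) (hv : ∀ g, 0 ≤ v g) :
    ∃ a : Fin m → Fin 2, SDEF1 u a ∧ EF1 (fun _ => v) a := by
  classical
  obtain ⟨r, hr, hrl, hrs, hru⟩ := exists_rank (u 0)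
  obtain ⟨s, hs, hsl, hss, hsu⟩ := exists_rank (u 1)
  by_contra hcon
  push Not at hcon
  have H : ∀ A : Finset (Fin m), Set.InjOn (fun x => s x / 2) A → Pre r Aᶜ →
      Big v A ∨ Big v Aᶜ := by
    intro A hA hP
    let a : Fin m → Fin 2 := fun g => if g ∈ A then 0 else 1
    have b0 : bundle a 0 = A := by
      ext g; by_cases h : g ∈ A <;> simp [bundle, a, h]
    have b1 : bundle a 1 = Aᶜ := by
      ext g; by_cases h : g ∈ A <;> simp [bundle, a, h]
    have hsd : SDEF1 u a := by
      intro i j g
      fin_cases i <;> fin_cases j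
      · simp
      · have := sd_of_pre (u 0) r hru Aᶜ hP g
        rw [compl_compl] at this
        simpa [b0, b1] using this
      · have := sd_of_pre (u 1) s hsu A (pre_of_inj s hss hsl A hA) g
        simpa [b0, b1] using this
      · simp
    have hne := hcon a hsd
    simp only [EF1, not_forall, not_or, not_exists, not_and, not_le] at hne
    obtain ⟨i, j, hj, hlt⟩ := hne
    have hj' : (bundle a j).Nonempty := nonempty_iff_ne_empty.2 hj
    have hlt' : ∀ g ∈ bundle a j, ∑ x ∈ bundle a i, v x + v g < ∑ x ∈ bundle a j, v x := by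
      intro g hg
      have := hlt g hg
      rw [← add_sum_erase _ v hg]
      linarith
    fin_cases i <;> fin_cases j
    · obtain ⟨g, hg⟩ := hj'
      have := hlt' g hg
      have := hv g
      simp only [Fin.zero_eta] at *
      linarith
    · right
      simp only [Fin.zero_eta, Fin.mk_one, b0, b1] at hj' hlt'
      exact ⟨hj', by rw [compl_compl]; exact hlt'⟩
    · left
      simp only [Fin.zero_eta, Fin.mk_one, b0, b1] at hj' hlt'
      exact ⟨hj', hlt'⟩
    · obtain ⟨g, hg⟩ := hj'
      have := hlt' g hg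
      have := hv g
      simp only [Fin.mk_one] at *
      linarith
  obtain ⟨S, h1, h2, h3, h4⟩ := exists_split r s hr hs hrl hsl hrs
  let T : Finset (Fin m) := univ.filter (fun g => ∀ h, s h / 2 = s g / 2 → r g ≤ r h)
  have hT : ∀ g, g ∈ T ↔ ∀ h, s h / 2 = s g / 2 → r g ≤ r h := by simp [T]
  have e1 := big_top v hv r s hr H T hT _ S rfl h3 (pre_of_inj r hrs hrl _ h2)
  have e2 := big_top v hv r s hr H T hT _ Sᶜ rfl h4
    (by rw [compl_compl]; exact pre_of_inj r hrs hrl _ h1)
  have hboth : Big v S ∧ Big v Sᶜ := by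
    rcases H S h3 (pre_of_inj r hrs hrl _ h2) with h | h
    · exact ⟨h, e2.2 (e1.1 h)⟩
    · exact ⟨e1.2 (e2.1 h), h⟩
  obtain ⟨⟨⟨b, hb⟩, k1⟩, ⟨⟨b', hb'⟩, k2⟩⟩ := hboth
  have k3 := k1 b hb
  have k4 := k2 b' hb'
  rw [compl_compl] at k4
  linarith [hv b, hv b']

end Pool.Agent.Results.MP_d51325_lc.TwoAgents
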